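import Pool.Agent.P.MP_78a647_lc.Pw.Stage

/-!
Prescribing the colours of all cross pairs, class by class.
-/

namespace Pool.Agent.P.MP_78a647_lc.Pw

open Set Full Full.Rh

/-- A partition into countably many classes and a code with one name for every class. -/
structure Cd (X : Rh) (C : Type) where
  cls : W1 → ℕ
  cd : ℕ → ℕ → ℕ → Option (Nc C)
  M : ℕ → ℕ
  per : ∀ m l l1 n n', l < l1 → n ≡ n' [MOD M l1] → cd m l n = cd m l n'
  hit : ∀ l0 l1 (c : ℕ → ℕ) (N : ℕ → Nc C), l0 < l1 →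
    (∀ m, (N m).1 ⊆ Finset.range (X.S l0 + 1) ×ˢ Finset.range (l0 + 1)) →
    ∃ t < M l1, (∀ m < l0, cd m l0 (c l0 + t) = some (N m)) ∧
      ∀ m l, l0 < l → l < l1 → cd m l (c l + t) = none

/-- The machine. -/
def Cd.mc {X : Rh} {C : Type} (Z : Cd X C) {P : Type} [PartialOrder P] (p : W1 → ℕ → P)
    (I : Type) : Mc C :=
  ⟨ConsI X p I, fun x => Z.cd (Z.cls x)⟩

variable {X : Rh} {C : Type} [Inhabited C] {Z : Cd X C} {P : Type} [PartialOrder P]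
  {p : W1 → ℕ → P} {I : Type} [Finite I] [Nonempty I]

/-- Two members of a uniform family with compatible conditions all of whose cross pairs outside
the root get the prescribed colour. -/
theorem cross2 [Nonempty P] {Q : Type} [PartialOrder Q] [Nonempty Q] (hQw : ∀ w, CCC (Fin w → Q))
    (hno : ¬ ∃ f : W1 → ℕ, ∀ ξ η, Compat (p ξ (f ξ)) (p η (f η))) (F0 : Fam X) (q0 : W1 → Q)
    (N : ℕ → Nc C) (hN : ∀ m, (N m).1 ⊆ Finset.range (X.S F0.l + 1) ×ˢ Finset.range (F0.l + 1)) :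
    ∃ ξ ∈ F0.T, ∃ η ∈ F0.T, ξ < η ∧ Compat (q0 ξ) (q0 η) ∧ ∀ v v', F0.r ≤ v → F0.r ≤ v' →
      Z.cls (F0.h ξ v) < F0.l →
      (∀ l < F0.l, ConsI X p I (X.anc l (F0.h η v') (F0.h ξ v)) l F0.l (N (Z.cls (F0.h ξ v))).1) →
      col X (Z.mc p I) (F0.h ξ v) (F0.h η v') = (N (Z.cls (F0.h ξ v))).2 := by
  classical
  have hP : CCC Q := CCC.of_map (fun q (_ : Fin 1) => q)
    (fun _ _ ⟨r, h1, h2⟩ => ⟨r 0, h1 0, h2 0⟩) (hQw 1)
  obtain ⟨S⟩ := exists_St2 hP hno F0 q0 (Fin (F0.m + 1) × I)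
  have hQ := hQw S.w
  obtain ⟨t0, ht0, -⟩ := Z.hit F0.l S.F.l (fun _ => 0) N S.hl hN
  have hM : 0 < 2 * Z.M S.F.l := by omega
  obtain ⟨F, q, hl, hC⟩ := tower hQ S.F S.q (Fin (2 * Z.M S.F.l)) (2 * Z.M S.F.l)
  obtain ⟨ζ, hζ, ζ', hζ', hlt, r, hr, hr'⟩ :
      ∃ ζ ∈ F.T, ∃ ζ' ∈ F.T, ζ < ζ' ∧ Compat (q ζ) (q ζ') := by
    obtain ⟨a, ha, b, hb, hab, r, h1, h2⟩ := hQ.exists_compat q F.unc
    rcases lt_or_gt_of_ne hab with h | h
    · exact ⟨a, ha, b, hb, h, r, h1, h2⟩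
    · exact ⟨b, hb, a, ha, h, r, h2, h1⟩
  obtain ⟨J0, θ0, C0, ε, hC⟩ := hC
    (fun u => ⟨chg (X.s (F.h ζ u) (F.top ζ')) F.l (X.ρ (F.h ζ u) (F.top ζ') - 1) % (2 * Z.M S.F.l),
      Nat.mod_lt _ hM⟩) fun u => X.sg (F.h ζ u) (F.h ζ' u)
  obtain ⟨Ax, f, hf⟩ := S.indep θ0
  obtain ⟨t, ht, c1, c2⟩ := Z.hit F0.l S.F.l
    (fun l => (chg f l S.F.l + C0 + ε.toNat + (J0 (Ax l)).val) / 2) N S.hl hN
  obtain ⟨φ, a, ψ, b, e1, e2, hJ, hC⟩ := hC (2 * t + ε.toNat) (by have := ε.toNat_le; omega)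
  obtain ⟨d1, d2⟩ := hC ζ hζ ζ' hζ' hlt (fun u _ => by simp only [bodd_two]; simp)
  have hδ := e1.lt e2 hζ hζ' hlt
  obtain ⟨a1, a2, a3⟩ := e1.1 ζ hζ
  obtain ⟨b1, b2, b3⟩ := e2.1 ζ' hζ'
  generalize a ζ = δ at d1 d2 hδ a1 a2 a3
  generalize b ζ' = δ' at d1 d2 hδ b1 b2 b3
  obtain ⟨u, hu⟩ : ∃ u, ∀ v e, state X (Z.mc p I) (F0.h (S.ξ δ) v) (S.F.top δ') S.F.l = some e →
      ¬ ConsI X p I (F0.h (S.η u δ') F0.r) F0.l e.1 e.2.1 := by
    by_contra h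
    push Not at h
    choose c e h1 h2 using h
    have h5 : ∀ i, ∃ B : I → Finset W1, (∀ i, X.KK p (B i)) ∧
        ∀ a ∈ {z | ∃ u, c u = i ∧ z = F0.h (S.η u δ') F0.r}, ∃ i, ∃ c ∈ B i, X.R F0.l a c := by
      intro i
      have h3 : ∀ z ∈ {z | ∃ u, c u = i ∧ z = F0.h (S.η u δ') F0.r},
          X.R S.F.l z (S.F.top δ') := by
        rintro _ ⟨u, -, rfl⟩
        rw [← ((S.hy u).1 δ' b1).2.2]
        exact S.F.R_top b1 _
      cases h4 : state X (Z.mc p I) (F0.h (S.ξ δ) i) (S.F.top δ') S.F.l with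
      | none =>
        refine cov_of_consI (Θ := ∅) le_rfl h3 ?_
        rintro _ ⟨u, rfl, rfl⟩
        rw [h1 u] at h4
        cases h4
      | some e0 =>
        refine cov_of_consI (Θ := e0.2.1) (st_level h4) h3 ?_
        rintro _ ⟨u, rfl, rfl⟩
        rw [h1 u] at h4
        cases h4
        exact h2 u
    choose B h6 h7 using h5
    choose j h8 using fun u => h7 (c u) _ ⟨u, rfl, rfl⟩
    obtain ⟨i, hi⟩ := S.ncov δ' b1 fun u => (c u, j u)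
    refine hi ⟨B i.1 i.2, h6 _ _, ?_⟩
    rintro _ ⟨u, rfl, rfl⟩
    exact h8 u
  have hξη := (S.hx u).lt (S.hy u) a1 b1 hδ
  obtain ⟨x1, x2, x3⟩ := (S.hx u).1 δ a1
  obtain ⟨y1, y2, y3⟩ := (S.hy u).1 δ' b1
  generalize S.ξ δ = ξ at hu hξη x1 x2 x3
  generalize S.η u δ' = η at hu hξη y1 y2 y3
  refine ⟨ξ, x1, η, y1, hξη, ⟨r u, ((hr.trans a2) u).trans x2, ((hr'.trans b2) u).trans y2⟩,
    fun v v' hv hv' h0 h5 => ?_⟩
  have g1 : ∀ v, F0.h ξ v < F0.h η v' := fun v => F0.inc ξ x1 η y1 hξη v v' hv'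
  have g2 : ¬ X.R S.F.l (F0.h ξ v) (F0.h η v') := by
    rw [← x3, ← y3]
    exact S.F.not_R a1 b1 hδ.ne ((S.hx u).2 v hv) _
  have g3 : X.R S.F.l (F0.h η v') (S.F.top δ') := by
    rw [← y3]
    exact S.F.R_top b1 _
  have g4 : X.R F.l (F0.h η v') (F.top ζ') := by
    rw [← y3, ← b3]
    exact F.R_top hζ' _
  have g5 : S.F.top δ < F0.h η v' := by
    rw [← y3]
    exact S.F.inc δ a1 δ' b1 hδ _ _ ((S.hy u).2 v' hv')
  have g6 : S.F.r ≤ S.ex (Fin.last _) := (S.hx u).2 _ (Fin.le_last _)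
  have g7 : S.F.r ≤ S.ey u (Fin.last _) := (S.hy u).2 _ (Fin.le_last _)
  have key : ∀ l, F0.l ≤ l → l ≤ S.F.l → X.cnt (F0.h ξ v) (F0.h η v') l / 2 ≡
      (chg f l S.F.l + C0 + ε.toNat + (J0 (Ax l)).val) / 2 + t [MOD Z.M S.F.l] := by
    intro l h1 h2
    have k0 : ¬ X.R l (F0.h ξ v) (F0.h η v') := fun h => g2 (h.mono h2)
    obtain ⟨k1, k2, -⟩ := blur ((F0.R_top x1 v).mono h1) ((F0.R_top y1 v').mono h1) (g1 _) k0
    have k3 := (anc_spec k1).1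
    have k4 : X.anc l (F0.top ξ) (F0.top η) = S.F.h δ (Ax l) := by
      unfold Fam.top
      rw [← x3, ← y3, S.F.anc_pos a1 b1 hδ.ne h2 g6, (hf u l h2).2.1]
    unfold cnt
    rw [k2, k4]
    rw [k4] at k3
    have k5 : ¬ X.R F.l (S.F.h δ (Ax l)) (F0.h η v') := by
      rw [← a3, ← y3, ← b3]
      exact F.not_R hζ hζ' hlt.ne (e1.2 _ (hf u l h2).1) _
    have k6 : S.F.h δ (Ax l) < F0.h η v' := k3.1.trans_lt (g1 _)
    have k7 := lt_rho k6.le k5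
    have k8 := rho_blur g4 k6.le k5
    refine half_mod (Z := chg (X.s (S.F.h δ (Ax l)) (F.top ζ')) F.l
      (X.ρ (S.F.h δ (Ax l)) (F.top ζ') - 1)) ?_ ?_
    · rw [chg_add _ h2 (by omega), chg_add _ hl (by omega), ← k8]
      have m1 : chg (X.s (S.F.h δ (Ax l)) (F0.h η v')) l S.F.l = chg f l S.F.l := by
        refine chg_congr fun j j1 j2 => ?_
        rw [s_blur (k3.mono j1) ((F0.R_top y1 v').mono (h1.trans j1)) (g1 _)
          fun h => k5 (h.mono (j2.trans hl))]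
        unfold Fam.top
        rw [← x3, ← y3, S.F.s_pos a1 b1 hδ.ne j2 g6 g7 d1, (hf u j j2).2.2]
      have m2 : chg (X.s (S.F.h δ (Ax l)) (F0.h η v')) S.F.l F.l = C0 + (2 * t + ε.toNat) := by
        rw [← d2]
        exact chg_congr fun j j1 j2 => s_blur ((S.F.R_top a1 _).mono j1) (g3.mono j1) g5
          fun h => k5 (h.mono j2)
      have m3 : chg (X.s (S.F.h δ (Ax l)) (F0.h η v')) F.l (X.ρ (S.F.h δ (Ax l)) (F0.h η v') - 1) =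
          chg (X.s (S.F.h δ (Ax l)) (F.top ζ')) F.l (X.ρ (S.F.h δ (Ax l)) (F0.h η v') - 1) :=
        chg_congr fun j j1 j2 => s_blur (R_refl _ _) (g4.mono j1) k6 (not_R (by omega))
      rw [m1, m2, m3]
      omega
    · rw [← hJ, ← a3]
  refine col_val S.hl (lt_rho (g1 v).le g2).le ?_ (fun l h1 h2 => ?_) (fun e he => ?_) h5
  · exact (Z.per _ _ _ _ _ S.hl (key _ le_rfl S.hl.le)).trans (c1 _ h0)
  · exact (Z.per _ _ _ _ _ h2 (key _ h1.le h2.le)).trans (c2 _ l h1 h2)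
  · rw [st_blur g3 (g1 v) g2] at he
    rw [F0.anc_pos y1 x1 hξη.ne' le_rfl hv', F0.A_top hv' hv]
    exact hu v e he

end Pool.Agent.P.MP_78a647_lc.Pw
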