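import Pool.Agent.P.MP_78a647_lc.Defs

/-!
An explicit form of collapsing the first uncountable cardinal.
-/

namespace Pool.Agent.P.MP_78a647_lc.Pw

open Cardinal

/-- There are antichains `a k`, each indexed by the countable ordinals, such that for every
countable ordinal `α` the countable set of the `a k α` is predense. A generic filter then gives a
map from a set of natural numbers onto `ω₁`. -/
def Collapses (R : Type) [PartialOrder R] : Prop :=
  ∃ a : ℕ → (ℵ₁ : Cardinal.{0}).ord.ToType → R,
    (∀ k α β, α ≠ β → ¬ Compat (a k α) (a k β)) ∧ ∀ α r, ∃ k, Compat r (a k α)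

end Pool.Agent.P.MP_78a647_lc.Pw
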