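import Pool.Agent.P.MP_78a647_lc.Full.Final

/-!
The one register machine with an arbitrary consistency test, finitely many colours and a code
which depends on the smaller point.
-/

namespace Pool.Agent.P.MP_78a647_lc.Pw

open Set Full Full.Rh

/-- Names with colours in `C`. -/
abbrev Nc (C : Type) : Type := Finset (ℕ × ℕ) × C

/-- States of the machine. -/
abbrev Sc (C : Type) : Type := Option (ℕ × Nc C)

variable {C : Type}

theorem exists_code2 (C : Type) [Fintype C] [Encodable C] [Inhabited C] (S : ℕ → ℕ) :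
    ∃ (cd : ℕ → ℕ → ℕ → Option (Nc C)) (M : ℕ → ℕ),
    (∀ m l l1 n n', l < l1 → n ≡ n' [MOD M l1] → cd m l n = cd m l n') ∧
    (∀ l0 l1 (c : ℕ → ℕ) (N : ℕ → Nc C), l0 < l1 →
      (∀ m, (N m).1 ⊆ Finset.range (S l0 + 1) ×ˢ Finset.range (l0 + 1)) →
      ∃ t < M l1, (∀ m < l0, cd m l0 (c l0 + t) = some (N m)) ∧
        ∀ m l, l0 < l → l < l1 → cd m l (c l + t) = none) := by
  let D : ℕ → ℕ := fun l => 2 + (Fintype.piFinset fun _ : Fin l =>
    (Finset.range (S l + 1) ×ˢ Finset.range (l + 1)).powerset ×ˢ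
      (Finset.univ : Finset C)).sup fun N : Fin l → Nc C => Encodable.encode (List.ofFn N)
  refine ⟨fun m l n => if n / codeM D l % D l = 0 then none
    else (Encodable.decode (α := List (Nc C)) (n / codeM D l % D l - 1)).map
      fun L => L.getD m default,
    codeM D, fun m l l1 n n' h e => ?_, fun l0 l1 c N h hN => ?_⟩
  · simp only [code_per D h e]
  · obtain ⟨t, ht, e⟩ := code_hit D
      (fun l => if l = l0 then Encodable.encode (List.ofFn fun i : Fin l0 => N i) + 1 else 0) c
      (fun l => by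
        split_ifs with k
        · subst k
          have := Finset.le_sup (f := fun N : Fin l → Nc C => Encodable.encode (List.ofFn N))
            (Fintype.mem_piFinset.2 fun i => (Finset.mem_product.2
              ⟨Finset.mem_powerset.2 (hN i), Finset.mem_univ (N i).2⟩ : N i ∈ _) :
              (fun i : Fin l => N i) ∈ _)
          simp only [D]
          omega
        · simp only [D]
          omega) l1
    refine ⟨t, ht, fun m hm => ?_, fun m l h1 h2 => ?_⟩
    · simp [e l0 h, hm]
    · simp [e l h2, h1.ne']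

/-- Run the steps `l + n - 1, …, l` in this order, starting from the empty state. -/
def run (f : ℕ → Sc C → Sc C) : ℕ → ℕ → Sc C
  | 0, _ => none
  | n + 1, l => f l (run f n (l + 1))

theorem run_congr {f g : ℕ → Sc C → Sc C} {n l : ℕ} (h : ∀ j, l ≤ j → j < l + n → f j = g j) :
    run f n l = run g n l := by
  induction n generalizing l with
  | zero => rfl
  | succ n ih =>
    show f l (run f n (l + 1)) = g l (run g n (l + 1))
    rw [h l le_rfl (by omega), ih fun j h1 h2 => h j (by omega) (by omega)]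

/-- A consistency test and a code. -/
structure Mc (C : Type) where
  Cn : W1 → ℕ → ℕ → Finset (ℕ × ℕ) → Prop
  cd : W1 → ℕ → ℕ → Option (Nc C)

section
variable (X : Rh) (Y : Mc C)

open Classical in
/-- One step of the machine at level `l`. -/
noncomputable def step (x y : W1) (l : ℕ) (st : Sc C) : Sc C :=
  (st.filter fun e => decide (Y.Cn (X.anc l y x) l e.1 e.2.1)).or
    ((Y.cd x l (X.cnt x y l / 2)).map fun N => (l, N))

/-- The state after the levels `≥ l` have been processed. -/
noncomputable def state (x y : W1) (l : ℕ) : Sc C := run (step X Y x y) (X.ρ x y - l) l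

/-- The colouring. -/
noncomputable def col [Inhabited C] (x y : W1) : C :=
  ((state X Y x y 0).map fun e => e.2.2).getD default

end

variable {X : Rh} {Y : Mc C}

theorem state_lt {x y : W1} {l : ℕ} (h : l < X.ρ x y) :
    state X Y x y l = step X Y x y l (state X Y x y (l + 1)) := by
  unfold state
  rw [show X.ρ x y - l = X.ρ x y - (l + 1) + 1 by omega]
  rfl

theorem step_none {x y : W1} {l : ℕ} {st : Sc C} {N : Nc C}
    (h2 : Y.cd x l (X.cnt x y l / 2) = some N)
    (h : ∀ e, st = some e → ¬ Y.Cn (X.anc l y x) l e.1 e.2.1) :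
    step X Y x y l st = some (l, N) := by
  unfold step
  rw [h2]
  cases st with
  | none => rfl
  | some e => simp [Option.filter, h e rfl]

theorem step_keep {x y : W1} {l : ℕ} {e : ℕ × Nc C}
    (h : Y.Cn (X.anc l y x) l e.1 e.2.1) : step X Y x y l (some e) = some e := by
  unfold step
  simp [Option.filter, h]

theorem step_skip {x y : W1} {l : ℕ} (st : Sc C) (h : Y.cd x l (X.cnt x y l / 2) = none) :
    step X Y x y l st = none ∨ step X Y x y l st = st := by
  unfold step
  rw [h]
  cases st with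
  | none => exact Or.inl rfl
  | some e =>
    by_cases hc : Y.Cn (X.anc l y x) l e.1 e.2.1 <;> simp [Option.filter, hc]

theorem step_cases {x y : W1} {l : ℕ} {st : Sc C} {e : ℕ × Nc C}
    (h : step X Y x y l st = some e) : st = some e ∨ e.1 = l := by
  unfold step at h
  rcases Option.or_eq_some_iff.1 h with h1 | ⟨-, h1⟩
  · exact Or.inl (Option.filter_eq_some_iff.1 h1).1
  · obtain ⟨N, -, rfl⟩ := Option.map_eq_some_iff.1 h1
    exact Or.inr rfl

theorem st_level {x y : W1} {l : ℕ} {e : ℕ × Nc C} (h : state X Y x y l = some e) : l ≤ e.1 := by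
  unfold state at h
  generalize X.ρ x y - l = n at h
  induction n generalizing l with
  | zero => exact absurd h (by simp [run])
  | succ n ih =>
    rcases step_cases (show step X Y x y l (run (step X Y x y) n (l + 1)) = some e from h) with
      h1 | h1
    · exact (Nat.le_succ l).trans (ih h1)
    · exact h1.ge

theorem st_blur {x y y' : W1} {l : ℕ} (hy : X.R l y y') (h : x < y) (hn : ¬ X.R l x y) :
    state X Y x y l = state X Y x y' l := by
  unfold state
  have hl := lt_rho h.le hn
  rw [← rho_blur hy h.le hn]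
  refine run_congr fun j h1 h2 => ?_
  have hj : ¬ X.R j x y := not_R (by omega)
  obtain ⟨-, e1, e2⟩ := blur (R_refl j x) (hy.mono h1) h hj
  obtain ⟨a1, a2, -⟩ := anc_spec hj
  have a3 : X.anc j x y < y := a1.1.trans_lt h
  have a4 := lt_rho a3.le a2
  have e3 : X.cnt x y j = X.cnt x y' j := by
    unfold cnt
    rw [← e1, ← rho_blur (hy.mono h1) a3.le a2]
    exact chg_congr fun i h3 h4 =>
      s_blur (R_refl i _) (hy.mono (h1.trans h3)) a3 (not_R (by omega))
  funext st
  unfold step
  rw [e2, e3]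

theorem col_val [Inhabited C] {x y : W1} {l0 l1 : ℕ} {N : Nc C} (h0 : l0 < l1) (h1 : l1 ≤ X.ρ x y)
    (h2 : Y.cd x l0 (X.cnt x y l0 / 2) = some N)
    (h3 : ∀ l, l0 < l → l < l1 → Y.cd x l (X.cnt x y l / 2) = none)
    (h4 : ∀ e, state X Y x y l1 = some e → ¬ Y.Cn (X.anc l0 y x) l0 e.1 e.2.1)
    (h5 : ∀ l < l0, Y.Cn (X.anc l y x) l l0 N.1) : col X Y x y = N.2 := by
  have A : ∀ n l, l + n = l1 → l0 < l →
      state X Y x y l = none ∨ state X Y x y l = state X Y x y l1 := by
    intro n
    induction n with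
    | zero => exact fun l e _ => Or.inr (by rw [← e]; rfl)
    | succ n ih =>
      intro l e hl
      rw [state_lt (show l < X.ρ x y by omega)]
      rcases step_skip (state X Y x y (l + 1)) (h3 l hl (by omega)) with h | h
      · exact Or.inl h
      · rw [h]
        exact ih (l + 1) (by omega) (by omega)
  have B : state X Y x y l0 = some (l0, N) := by
    rw [state_lt (h0.trans_le h1)]
    refine step_none h2 fun e he => ?_
    rcases A (l1 - (l0 + 1)) (l0 + 1) (by omega) (by omega) with h | h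
    · rw [h] at he
      exact absurd he (by simp)
    · exact h4 e (h ▸ he)
  have D : ∀ n l, l + n = l0 → state X Y x y l = some (l0, N) := by
    intro n
    induction n with
    | zero => exact fun l e => by rw [← B, ← e]; rfl
    | succ n ih =>
      intro l e
      rw [state_lt (show l < X.ρ x y by omega), ih (l + 1) (by omega)]
      exact step_keep (h5 l (by omega))
  unfold col
  rw [D l0 0 (by omega)]
  rfl

variable {P : Type} [PartialOrder P] {p : W1 → ℕ → P} {I : Type}

/-- The name `Θ` read at level `l'` is consistent with the anchor `ν` at level `l`, for members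
of the complex indexed by `I`. -/
def ConsI (X : Rh) (p : W1 → ℕ → P) (I : Type) (ν : W1) (l l' : ℕ) (Θ : Finset (ℕ × ℕ)) : Prop :=
  (X.nrm l' ν, l) ∈ Θ ∧ ∃ B : I → Finset W1, (∀ i, X.KK p (B i)) ∧
    ∀ z, X.R l' z ν → ∀ j, (X.nrm l' z, j) ∈ Θ → ∃ i, ∃ c ∈ B i, X.R j z c

theorem cov_of_consI [Nonempty P] {V : Set W1} {c : W1} {l0 l1 l' : ℕ} {Θ : Finset (ℕ × ℕ)}
    (h1 : l1 ≤ l') (h2 : ∀ a ∈ V, X.R l1 a c) (h3 : ∀ a ∈ V, ConsI X p I a l0 l' Θ) :
    ∃ B : I → Finset W1, (∀ i, X.KK p (B i)) ∧ ∀ a ∈ V, ∃ i, ∃ c ∈ B i, X.R l0 a c := by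
  rcases V.eq_empty_or_nonempty with rfl | hne
  · exact ⟨fun _ => ∅, fun _ => KK_empty, fun a ha => absurd ha (notMem_empty a)⟩
  obtain ⟨ν, hν, hm⟩ := Set.exists_max_image V id ((X.fin l1 c).subset h2) hne
  obtain ⟨-, B, hB, hc⟩ := h3 ν hν
  exact ⟨B, hB, fun a ha =>
    hc a (((h2 a ha).tri (h2 ν hν) (hm a ha)).mono h1) l0 (h3 a ha).1⟩

theorem consI_theta {l l0 : ℕ} {c y ν : W1} {U : Finset W1} {B : I → Finset W1}
    (hB : ∀ i, X.KK p (B i)) (hU : ∀ z ∈ U, ∃ i, z ∈ B i) (hy : y ∈ U) (h1 : X.R l0 y c)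
    (h2 : X.R l ν y) (h3 : l ≤ l0) : ConsI X p I ν l l0 (X.theta l0 c U) := by
  have h4 : X.R l0 ν c := (h2.mono h3).trans h1
  refine ⟨Run_mem_theta.2 ⟨ν, h4, h3, ⟨y, hy, h2⟩, rfl⟩, B, hB, fun z hz j hj => ?_⟩
  obtain ⟨z', a1, -, ⟨w, a2, a3⟩, a4⟩ := Run_mem_theta.1 hj
  obtain ⟨i, hi⟩ := hU w a2
  exact ⟨i, w, hi, by rwa [nrm_inj a1 (hz.trans h4) a4] at a3⟩

end Pool.Agent.P.MP_78a647_lc.Pw
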