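import Pool.Agent.P.MP_78a647_lc.Pw.Cross
import Pool.Agent.P.MP_78a647_lc.Pw.Defs

/-!
Finitely many posets whose product collapses `ω₁`, while every product omitting one of them has a
ccc power of prescribed finite exponent.
-/

namespace Pool.Agent.P.MP_78a647_lc.Pw

open Set Full Full.Rh

variable {X : Rh} {C : Type} [Inhabited C] {Z : Cd X C} {P : Type} [PartialOrder P]
  {p : W1 → ℕ → P} {I : Type}

/-- Every class of `B` lies in the complex and omits the colour `b`. -/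
def Mem (Z : Cd X C) (p : W1 → ℕ → P) (I : Type) (b : C) (B : Finset W1) : Prop :=
  (∀ m, X.KK p (B.filter fun x => Z.cls x = m)) ∧
    ∀ x ∈ B, ∀ y ∈ B, x < y → Z.cls x = Z.cls y → col X (Z.mc p I) x y ≠ b

/-- The poset of such finite sets under reverse inclusion. -/
abbrev KJ (Z : Cd X C) (p : W1 → ℕ → P) (I : Type) (b : C) : Type :=
  OrderDual {B : Finset W1 // Mem Z p I b B}

theorem pow_pi (hP : ∀ n, CCC (Fin n → P)) (J : Type) [Finite J] : CCC (J → P) := by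
  obtain ⟨n, ⟨e⟩⟩ := Finite.exists_equiv_fin J
  refine CCC.of_map (fun g => g ∘ e.symm) ?_ (hP n)
  rintro p q ⟨r, h1, h2⟩
  exact ⟨r ∘ e, fun b => by simpa using h1 (e b), fun b => by simpa using h2 (e b)⟩

theorem pow_pi2 (hP : ∀ n, CCC (Fin n → P)) (J : Type) [Finite J] (w : ℕ) :
    CCC (Fin w → J → P) :=
  CCC.of_map (fun g (j : Fin w × J) => g j.1 j.2)
    (fun _ _ ⟨r, h1, h2⟩ => ⟨fun u j => r (u, j), fun u j => h1 (u, j), fun u j => h2 (u, j)⟩)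
    (pow_pi hP _)

theorem ccc_KJ [Finite I] [Nonempty I] [Nonempty P] (hP : ∀ n, CCC (Fin n → P))
    (H1 : ∀ ξ q, ∃ n, Compat q (p ξ n))
    (hno : ¬ ∃ f : W1 → ℕ, ∀ ξ η, Compat (p ξ (f ξ)) (p η (f η))) {J : Type} (π : I → J)
    (hπ : Function.Surjective π) (g : J → C) (b : C) (hg : ∀ j, b ≠ g j) :
    CCC (∀ j, KJ Z p I (g j)) := by
  classical
  have := Finite.of_surjective π hπ
  have := Fintype.ofFinite J
  intro A hA
  by_contra hunc
  obtain ⟨e, he, heA⟩ := W1_inj hunc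
  let B : W1 → J → Finset W1 := fun ξ i => (OrderDual.ofDual (e ξ i)).1
  have hB : ∀ ξ i, Mem Z p I (g i) (B ξ i) := fun ξ i => (OrderDual.ofDual (e ξ i)).2
  obtain ⟨U, hU⟩ : ∃ U : W1 → Finset W1, ∀ ξ x, x ∈ U ξ ↔ ∃ i, x ∈ B ξ i :=
    ⟨fun ξ => Finset.univ.biUnion (B ξ), by simp⟩
  have h0 : ∀ ξ, ∃ (β : W1) (l : ℕ) (q : J → ℕ → P), ξ ≤ β ∧
      (∀ x ∈ U ξ, X.R l x β ∧ Z.cls x < l) ∧
      (∀ i m, X.Wit p ((B ξ i).filter fun x => Z.cls x = m) (q i m)) ∧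
      ∀ i, ∀ c ∈ U ξ, ∀ z, X.R (2 * (U ξ).card) z c → ∃ n < l, q i (Z.cls c) ≤ p z n := by
    intro ξ
    choose q hq using fun i m => (hB ξ i).1 m
    choose q' h1 l h2 using fun i m => wit_ext H1 ((U ξ).biUnion (X.cl (2 * (U ξ).card))) (q i m)
    obtain ⟨L, hL⟩ := (finite_range fun j : J × U ξ =>
      max (l j.1 (Z.cls j.2)) (Z.cls j.2)).bddAbove
    obtain ⟨β, hβ⟩ := exists_gt_of_countable W1_Iio ((U ξ).countable_toSet.insert ξ)
    obtain ⟨l', h3, h4⟩ := exists_level (X := X) (fun x : U ξ => (x : W1)) β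
      (fun x => (hβ x (Or.inr x.2)).le) L
    refine ⟨β, l', q', (hβ ξ (Or.inl rfl)).le, fun x hx => ⟨h4 ⟨x, hx⟩, ?_⟩,
      fun i m => (hq i m).le (h1 i m), fun i c hc z hz => ?_⟩
    · exact ((le_max_right _ _).trans
        (hL ⟨(π (Classical.arbitrary I), ⟨x, hx⟩), rfl⟩)).trans_lt h3
    · obtain ⟨n, h5, h6⟩ := h2 i (Z.cls c) z (Finset.mem_biUnion.2 ⟨c, hc, mem_cl.2 hz⟩)
      exact ⟨n, (h5.trans_le ((le_max_left _ _).trans (hL ⟨(i, ⟨c, hc⟩), rfl⟩))).trans h3, h6⟩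
  choose β lv q0 h01 h02 h03 h04 using h0
  obtain ⟨⟨n, l0⟩, hk⟩ := exists_uncountable_fibre (S := (univ : Set W1)) not_countable_univ
    fun ξ => ((U ξ).card, lv ξ)
  obtain ⟨⟨s0, Θ, N0⟩, hk2⟩ := exists_uncountable_fibre hk
    fun ξ => ((fun (i : J) (m : Fin l0) (k : Fin (l0 + 1)) =>
        ((B ξ i).filter fun x => Z.cls x = m).image (X.sig k)),
      (fun m : Fin l0 => X.theta l0 (β ξ) ((U ξ).filter fun x => Z.cls x = m)),
      fun i => (B ξ i).image (X.nrm l0))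
  obtain ⟨F0, -, f1, rfl, f2, -, -⟩ := exists_fam X hk2 β (fun ζ _ => h01 ζ) l0 (ι := Empty)
    (fun _ i => i.elim) fun _ _ i => i.elim
  have f3 : ∀ ξ ∈ F0.T, (U ξ).card = n ∧ lv ξ = F0.l := fun ξ h => Prod.mk.inj (f1 h).1.2
  have f4 : ∀ ξ ∈ F0.T, (fun (i : J) (m : Fin F0.l) (k : Fin (F0.l + 1)) =>
        ((B ξ i).filter fun x => Z.cls x = m).image (X.sig k)) = s0 ∧
      (fun m : Fin F0.l => X.theta F0.l (β ξ) ((U ξ).filter fun x => Z.cls x = m)) = Θ ∧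
      (fun i => (B ξ i).image (X.nrm F0.l)) = N0 := fun ξ h => by
    simpa only [Prod.mk.injEq] using (f1 h).2
  have f5 : ∀ ξ ∈ F0.T, ∀ i, ∀ x ∈ B ξ i, X.R F0.l x (F0.top ξ) ∧ Z.cls x < F0.l :=
    fun ξ h i x hx => by
      rw [f2 ξ h, ← (f3 ξ h).2]
      exact h02 ξ x ((hU ξ x).2 ⟨i, hx⟩)
  have f6 : ∀ ξ ∈ F0.T, ∀ η ∈ F0.T, ∀ i, ∀ x ∈ B ξ i,
      x ∈ B η i ∨ ∃ v, F0.r ≤ v ∧ F0.h ξ v = x := by
    intro ξ hξ η hη i x hx
    obtain ⟨v, rfl⟩ := (F0.rng ξ hξ x).1 (f5 ξ hξ i x hx).1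
    rcases lt_or_ge v F0.r with h | h
    · left
      have h1 := Finset.mem_image_of_mem (X.nrm F0.l) hx
      rw [congrFun ((f4 ξ hξ).2.2.trans (f4 η hη).2.2.symm) i] at h1
      obtain ⟨y, hy, h2⟩ := Finset.mem_image.1 h1
      rw [F0.root ξ hξ η hη v h] at h2 ⊢
      exact nrm_inj (f5 η hη i y hy).1 (F0.R_top hη v) h2 ▸ hy
    · exact Or.inr ⟨v, h, rfl⟩
  have f7 : ∀ ξ ∈ F0.T, ∀ i m, ((B ξ i).filter fun x => Z.cls x = m).card ≤ n :=
    fun ξ h i m => (f3 ξ h).1 ▸ Finset.card_le_card fun x hx =>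
      (hU ξ x).2 ⟨i, (Finset.mem_filter.1 hx).1⟩
  obtain ⟨ξ0, hξ0⟩ := F0.nonempty
  obtain ⟨ξ, hξ, η, hη, hlt, ⟨r, r1, r2⟩, hc⟩ := cross2 (Z := Z) (I := I)
    (pow_pi2 hP (J × Fin F0.l)) hno F0 (fun ξ j => q0 ξ j.1 j.2)
    (fun m => (X.theta F0.l (β ξ0) ((U ξ0).filter fun x => Z.cls x = m), b))
    fun m => theta_subset _ _ _
  refine hA (heA ξ) (heA η) (he.ne hlt.ne) ⟨fun i => OrderDual.toDual ⟨B ξ i ∪ B η i,
    fun m => ?_, ?_⟩, fun i => Finset.subset_union_left, fun i => Finset.subset_union_right⟩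
  · rcases lt_or_ge m F0.l with hm | hm
    · rw [Finset.filter_union]
      refine ⟨r (i, ⟨m, hm⟩), wit_union (l := F0.l) (n := n) ((h03 ξ i m).le (r1 (i, ⟨m, hm⟩)))
        ((h03 η i m).le (r2 (i, ⟨m, hm⟩))) (fun k hk => ?_) (f7 ξ hξ i m) (f7 η hη i m)
        fun c hc z hz => ?_⟩
      · exact congrFun (congrFun (congrFun ((f4 ξ hξ).1.trans (f4 η hη).1.symm) i) ⟨m, hm⟩)
          ⟨k, by omega⟩
      · rcases Finset.mem_union.1 hc with h' | h' <;> obtain ⟨h, rfl⟩ := Finset.mem_filter.1 h'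
        · obtain ⟨j, h1, h2⟩ := h04 ξ i c ((hU ξ c).2 ⟨i, h⟩) z ((f3 ξ hξ).1.symm ▸ hz)
          exact ⟨j, (f3 ξ hξ).2 ▸ h1, (r1 (i, ⟨_, hm⟩)).trans h2⟩
        · obtain ⟨j, h1, h2⟩ := h04 η i c ((hU η c).2 ⟨i, h⟩) z ((f3 η hη).1.symm ▸ hz)
          exact ⟨j, (f3 η hη).2 ▸ h1, (r2 (i, ⟨_, hm⟩)).trans h2⟩
    · rw [Finset.filter_false_of_mem fun x hx h => ?_]
      · exact KK_empty
      · rcases Finset.mem_union.1 hx with hx | hx
        · exact absurd (f5 ξ hξ i x hx).2 (by omega)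
        · exact absurd (f5 η hη i x hx).2 (by omega)
  · intro x hx y hy hxy hcl
    rcases Finset.mem_union.1 hx with hx | hx <;> rcases Finset.mem_union.1 hy with hy | hy
    · exact (hB ξ i).2 x hx y hy hxy hcl
    · rcases f6 ξ hξ η hη i x hx with h1 | ⟨v, hv, rfl⟩
      · exact (hB η i).2 x h1 y hy hxy hcl
      rcases f6 η hη ξ hξ i y hy with h1 | ⟨v', hv', rfl⟩
      · exact (hB ξ i).2 _ hx y h1 hxy hcl
      have hm := (f5 ξ hξ i _ hx).2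
      refine (hc v v' hv hv' hm fun l hl => ?_).trans_ne (hg i)
      have h2 := congrFun ((f4 ξ0 hξ0).2.1.trans (f4 η hη).2.1.symm) ⟨_, hm⟩
      simp only at h2 ⊢
      rw [h2, ← f2 η hη]
      refine consI_theta (fun i => (hB η (π i)).1 (Z.cls (F0.h ξ v))) (fun z hz => ?_)
        (Finset.mem_filter.2 ⟨(hU η _).2 ⟨i, hy⟩, hcl.symm⟩) (F0.R_top hη v')
        (anc_spec (not_R_of_lt hxy)).1 hl.le
      obtain ⟨h3, h4⟩ := Finset.mem_filter.1 hz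
      obtain ⟨j, hj⟩ := (hU η z).1 h3
      obtain ⟨j, rfl⟩ := hπ j
      exact ⟨j, Finset.mem_filter.2 ⟨hj, h4⟩⟩
    · rcases f6 η hη ξ hξ i x hx with h1 | ⟨v, hv, rfl⟩
      · exact (hB ξ i).2 x h1 y hy hxy hcl
      obtain ⟨v', rfl⟩ := (F0.rng ξ hξ y).1 (f5 ξ hξ i y hy).1
      exact absurd (F0.inc ξ hξ η hη hlt v' v hv) hxy.asymm
    · exact (hB η i).2 x hx y hy hxy hcl

theorem mem_ins [Nonempty P] {b : C} {B : Finset W1} (hB : Mem Z p I b B) {x : W1}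
    (hx : ∀ y ∈ B, Z.cls y ≠ Z.cls x) : Mem Z p I b (insert x B) := by
  refine ⟨fun m => ?_, fun y hy z hz h1 h2 => ?_⟩
  · rw [Finset.filter_insert]
    split_ifs with h
    · rw [Finset.filter_false_of_mem fun y hy h2 => hx y hy (h2.trans h.symm)]
      exact KK_singleton x
    · exact hB.1 m
  · rcases Finset.mem_insert.1 hy with rfl | hy' <;> rcases Finset.mem_insert.1 hz with rfl | hz'
    · exact absurd h1 (lt_irrefl _)
    · exact absurd h2.symm (hx z hz')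
    · exact absurd h2 (hx y hy')
    · exact hB.2 y hy' z hz' h1 h2

theorem mem_emp [Nonempty P] (b : C) : Mem Z p I b ∅ :=
  ⟨fun _ => KK_empty, fun x hx => absurd hx (Finset.notMem_empty x)⟩

theorem collapses_KJ [Fintype C] [Nonempty P] (E : ℕ → W1 → W1) (h1 : ∀ k α, Z.cls (E k α) = k)
    (h2 : ∀ k, Function.Injective (E k)) : Collapses (∀ b, KJ Z p I b) := by
  let g : W1 → ∀ b, KJ Z p I b := fun x b => OrderDual.toDual ⟨insert x ∅,
    mem_ins (mem_emp b) fun y hy => absurd hy (Finset.notMem_empty y)⟩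
  have k : ∀ (r : ∀ b, KJ Z p I b) x y, r ≤ g x → r ≤ g y → x < y → Z.cls x ≠ Z.cls y :=
    fun r x y h3 h4 h5 h6 => (OrderDual.ofDual (r _)).2.2 x (h3 _ (Finset.mem_insert_self x ∅)) y
      (h4 _ (Finset.mem_insert_self y ∅)) h5 h6 rfl
  refine ⟨fun k α => g (E k α), fun m α β h ⟨r, h3, h4⟩ => ?_, fun α r => ?_⟩
  · have h5 := (h1 m α).trans (h1 m β).symm
    rcases lt_or_gt_of_ne ((h2 m).ne h) with h6 | h6
    · exact k r _ _ h3 h4 h6 h5
    · exact k r _ _ h4 h3 h6 h5.symm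
  · obtain ⟨m, hm⟩ := Infinite.exists_notMem_finset
      ((Finset.univ.biUnion fun b => (OrderDual.ofDual (r b)).1).image Z.cls)
    exact ⟨m, fun b => OrderDual.toDual ⟨insert (E m α) _, mem_ins (OrderDual.ofDual (r b)).2
      fun y hy h => hm (Finset.mem_image.2 ⟨y, Finset.mem_biUnion.2 ⟨b, Finset.mem_univ b, hy⟩,
        h.trans (h1 m α)⟩)⟩, fun b => Finset.subset_insert _ _,
      fun b => Finset.insert_subset_insert _ (Finset.empty_subset _)⟩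

theorem core_pow [Nonempty P] (hP : ∀ n, CCC (Fin n → P)) {n k : ℕ} (hn : 1 ≤ n) (hk : 2 ≤ k)
    (H : ∀ (Q : Fin k → Type) [∀ i, PartialOrder (Q i)],
      (∀ j, CCC (Fin n → ∀ i : {i : Fin k // i ≠ j}, Q i.1)) → ¬ Collapses (∀ i, Q i))
    (p : W1 → ℕ → P) (H1 : ∀ ξ q, ∃ n, Compat q (p ξ n)) :
    ∃ f : W1 → ℕ, ∀ ξ η, Compat (p ξ (f ξ)) (p η (f η)) := by
  by_contra hno
  have : Nontrivial (Fin k) := Fin.nontrivial_iff_two_le.2 hk
  have : Inhabited (Fin k) := ⟨⟨0, by omega⟩⟩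
  have : Nonempty (Fin n) := ⟨⟨0, hn⟩⟩
  obtain ⟨X⟩ := exists_Rh
  obtain ⟨cd, M, c1, c2⟩ := exists_code2 (Fin k) X.S
  obtain ⟨E⟩ : Nonempty (W1 ≃ ℕ × W1) := by
    rw [← Cardinal.eq, ← Cardinal.mul_def, mk_W1, Cardinal.mk_nat,
      Cardinal.mul_eq_right Cardinal.aleph0_lt_aleph_one.le Cardinal.aleph0_lt_aleph_one.le
        Cardinal.aleph0_ne_zero]
  let Z : Cd X (Fin k) := ⟨fun x => (E x).1, cd, M, c1, c2⟩
  refine H (KJ Z p (Fin n × Fin k)) (fun j => ?_)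
    (collapses_KJ (fun k α => E.symm (k, α)) (fun k α => by simp [Z])
      fun k α β h => (Prod.mk.inj (E.symm.injective h)).2)
  have : Nonempty {i // i ≠ j} := nonempty_subtype.2 (exists_ne j)
  have hι : Function.Injective (Prod.map id Subtype.val : Fin n × {i // i ≠ j} → Fin n × Fin k) :=
    Function.injective_id.prodMap Subtype.val_injective
  exact CCC.of_map (fun g (i : Fin n × {i // i ≠ j}) => g i.1 i.2)
    (fun _ _ ⟨r, h1, h2⟩ => ⟨fun u j => r (u, j), fun u j => h1 (u, j), fun u j => h2 (u, j)⟩)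
    (ccc_KJ hP H1 hno _ (Function.invFun_surjective hι) (fun i => i.2.1) j fun i => i.2.2.symm)

end Pool.Agent.P.MP_78a647_lc.Pw
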