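import Pool.Agent.P.MP_78a647_lc.Pw.Mach

/-!
The first stage for an arbitrary finite number of classes.
-/

namespace Pool.Agent.P.MP_78a647_lc.Pw

open Set Full

/-- The first stage: every member contains one member `ξ` of `F0` and members `η u` of `F0` that
cannot be split into coverable sets indexed by `ι` and look the same from `ξ`. -/
structure St2 {X : Rh} {P Q : Type} [PartialOrder P] [PartialOrder Q] (p : W1 → ℕ → P)
    (F0 : Fam X) (p0 : W1 → Q) (ι : Type) where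
  F : Fam X
  w : ℕ
  q : W1 → Fin w → Q
  ξ : W1 → W1
  η : Fin w → W1 → W1
  ex : Fin (F0.m + 1) → Fin (F.m + 1)
  ey : Fin w → Fin (F0.m + 1) → Fin (F.m + 1)
  hl : F0.l < F.l
  hx : ∀ u, Emb F0 p0 F (fun δ => q δ u) ex ξ
  hy : ∀ u, Emb F0 p0 F (fun δ => q δ u) (ey u) (η u)
  indep : ∀ θ, ∃ (Ax : ℕ → Fin (F.m + 1)) (f : ℕ → Bool), ∀ u, ∀ j ≤ F.l, F.r ≤ Ax j ∧
    F.A j (ex (Fin.last _)) (ey u (Fin.last _)) = Ax j ∧
    F.sA θ (ex (Fin.last _)) (ey u (Fin.last _)) j = f j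
  ncov : ∀ δ ∈ F.T, ∀ c : Fin w → ι,
    ∃ i, ¬ X.Cov p F0.l {a | ∃ u, c u = i ∧ a = F0.h (η u δ) F0.r}

/-- The data of one member of the first stage. -/
def Good {X : Rh} {P Q : Type} [PartialOrder P] [PartialOrder Q] (p : W1 → ℕ → P) (F0 : Fam X)
    (p0 : W1 → Q) (ι : Type) (δ : W1) (w l : ℕ) (a : Option (Fin w) → W1) (q : Fin w → Q)
    (c : W1) : Prop :=
  (∀ i, a i ∈ F0.T ∧ δ < F0.h (a i) F0.r ∧ ∀ v, X.R l (F0.h (a i) v) c) ∧ δ ≤ c ∧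
  (∀ u, q u ≤ p0 (a none) ∧ q u ≤ p0 (a (some u)) ∧
    stage1Tr X δ (F0.top (a none)) (F0.top (a (some u))) ∧
    ∀ u', stage1Sm X δ (F0.top (a none)) (F0.top (a (some u))) (F0.top (a (some u')))) ∧
  ∀ c : Fin w → ι,
    ∃ i, ¬ X.Cov p F0.l {z | ∃ u, c u = i ∧ z = F0.h (a (some u)) F0.r}

theorem good_one {X : Rh} {P Q : Type} [PartialOrder P] [PartialOrder Q] {p : W1 → ℕ → P}
    (hP : CCC Q) (hno : ¬ ∃ f : W1 → ℕ, ∀ ξ η, Compat (p ξ (f ξ)) (p η (f η)))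
    (F0 : Fam X) (p0 : W1 → Q) (ι : Type) [Finite ι] [Nonempty ι] (δ : W1) :
    ∃ k : ℕ × ℕ, F0.l < k.2 ∧ ∃ a q c, Good p F0 p0 ι δ k.1 k.2 a q c := by
  have hle : ∀ ξ ∈ F0.T, δ < F0.h ξ F0.r → δ ≤ F0.top ξ := fun ξ h1 h2 =>
    h2.le.trans (F0.R_top h1 _).1
  obtain ⟨U1, s1, h1, t1⟩ := stage1_trace X δ (F0.above δ) F0.top fun ξ h => hle ξ h.1 h.2
  obtain ⟨ξ, hξ, h2⟩ := exists_many hP h1 p0
  have h3 : ¬ {η ∈ {η ∈ U1 | Compat (p0 ξ) (p0 η)} | ξ < η}.Countable := fun h =>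
    h2 ((h.union (countable_Iic W1_Iio ξ)).mono fun η hη =>
      (lt_or_ge ξ η).imp (fun h => ⟨hη, h⟩) id)
  obtain ⟨U3, s3, h4, t3⟩ := stage1_same X (hle ξ (s1 hξ).1 (s1 hξ).2) h3 F0.top fun η h =>
    (F0.inc ξ (s1 hξ).1 η (s1 h.1.1).1 h.2 _ _ (Fin.le_last _)).le
  obtain ⟨w, η, h5, h6⟩ := Rh.spade (X := X) hno ι F0.l h4 (fun ζ => F0.h ζ F0.r)
    (F0.injOn_r.mono fun ζ h => (s1 (s3 h).1.1).1)
  choose q q1 q2 using fun u => (s3 (h5 u)).1.2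
  let a : Option (Fin w) → W1 := fun i => i.elim ξ η
  have ha : ∀ i, a i ∈ U1 := fun i => by
    cases i with
    | none => exact hξ
    | some u => exact (s3 (h5 u)).1.1
  obtain ⟨c, hc⟩ := (finite_range fun i : Option (Fin w) × Fin (F0.m + 1) =>
    F0.h (a i.1) i.2).bddAbove
  obtain ⟨l, h7, h8⟩ := Rh.exists_level (X := X)
    (fun i : Option (Fin w) × Fin (F0.m + 1) => F0.h (a i.1) i.2) c (fun i => hc ⟨i, rfl⟩) F0.l
  exact ⟨(w, l), h7, a, q, c, fun i => ⟨(s1 (ha i)).1, (s1 (ha i)).2, fun v => h8 (i, v)⟩,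
    (s1 hξ).2.le.trans (h8 (none, F0.r)).1,
    fun u => ⟨q1 u, q2 u, t1 _ hξ _ (ha (some u)), fun u' => t3 _ (h5 u) _ (h5 u')⟩, h6⟩

theorem exists_St2 {X : Rh} {P Q : Type} [PartialOrder P] [PartialOrder Q] [Nonempty Q]
    {p : W1 → ℕ → P} (hP : CCC Q) (hno : ¬ ∃ f : W1 → ℕ, ∀ ξ η, Compat (p ξ (f ξ)) (p η (f η)))
    (F0 : Fam X) (p0 : W1 → Q) (ι : Type) [Finite ι] [Nonempty ι] :
    Nonempty (St2 p F0 p0 ι) := by
  choose K hK1 hK2 using good_one hP hno F0 p0 ι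
  obtain ⟨⟨w, l⟩, hT⟩ := exists_uncountable_fibre (Set.not_countable_univ (α := W1)) K
  have h1 : ∀ δ ∈ {δ ∈ univ | K δ = (w, l)}, ∃ a q c, Good p F0 p0 ι δ w l a q c :=
    fun δ hδ => by
      have := hK2 δ
      rwa [hδ.2] at this
  choose! a q c hG using h1
  obtain ⟨F, pos, s1, e1, -, hr, e2⟩ := exists_fam X hT c (fun δ h => (hG δ h).2.1) l
    (fun δ (i : Option (Fin w) × Fin (F0.m + 1)) => F0.h (a δ i.1) i.2)
    fun δ h i => ((hG δ h).1 i.1).2.2 i.2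
  obtain ⟨δ0, h0⟩ := F.nonempty
  have hG0 := hG δ0 (s1 h0)
  have hle : ∀ i v, F0.r ≤ v → δ0 ≤ F.h δ0 (pos (i, v)) := fun i v hv => by
    rw [e2 δ0 h0]
    exact (hG0.1 i).2.1.le.trans ((F0.mono _ (hG0.1 i).1).monotone hv)
  have hl : F0.l < F.l := by
    have := hK1 δ0
    rwa [(s1 h0).2, ← e1] at this
  refine ⟨⟨F, w, q, fun δ => a δ none, fun u δ => a δ (some u), fun v => pos (none, v),
    fun u v => pos (some u, v), hl, fun u => ⟨fun δ h => ?_, fun v hv => ?_⟩,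
    fun u => ⟨fun δ h => ?_, fun v hv => ?_⟩, fun θ => ?_, fun δ h => (hG δ (s1 h)).2.2.2⟩⟩
  · exact ⟨((hG δ (s1 h)).1 none).1, ((hG δ (s1 h)).2.2.1 u).1, fun v => e2 δ h (none, v)⟩
  · exact stage1_root (hr δ0 h0) (hle none v hv)
  · exact ⟨((hG δ (s1 h)).1 (some u)).1, ((hG δ (s1 h)).2.2.1 u).2.1, fun v => e2 δ h (some u, v)⟩
  · exact stage1_root (hr δ0 h0) (hle (some u) v hv)
  · rcases isEmpty_or_nonempty (Fin w) with hw | ⟨⟨u0⟩⟩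
    · exact ⟨fun _ => F.r, fun _ => false, fun u => hw.elim u⟩
    have e3 : ∀ i, F.h δ0 (pos (i, Fin.last _)) = F0.top (a δ0 i) := fun i => e2 δ0 h0 _
    have l3 : ∀ i, δ0 ≤ F.h δ0 (pos (i, Fin.last _)) := fun i => hle i _ (Fin.le_last _)
    have t3 : ∀ u, stage1Tr X δ0 (F.h δ0 (pos (none, Fin.last _)))
        (F.h δ0 (pos (some u, Fin.last _))) := fun u => by
      rw [e3, e3]
      exact (hG0.2.2.1 u).2.2.1
    refine ⟨fun j => stage1N F j (pos (none, Fin.last _)),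
      F.sA θ (pos (none, Fin.last _)) (pos (some u0, Fin.last _)), fun u j hj =>
      ⟨(stage1N_spec h0 (stage1_root (hr δ0 h0) (l3 none))).2.1,
        stage1_A h0 (hr δ0 h0) (l3 _) (t3 u),
        stage1_sA h0 (hr δ0 h0) (l3 _) (l3 _) (l3 _) (t3 u) (t3 u0) ?_ hj θ⟩⟩
    rw [e3, e3, e3]
    exact (hG0.2.2.1 u).2.2.2 u0

end Pool.Agent.P.MP_78a647_lc.Pw
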